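import Mathlib
import Pool.Agent.Lib.MP_20b407_ag.Defs
import Pool.Agent.Lib.MP_20b407_ag.Main

namespace Pool.Agent.Lib.MP_20b407_ag.Old

open Pool.Agent.Lib.MP_20b407_ag

/-- A smoothing of a rational surface singularity whose canonical algebra is not finitely
generated. -/
theorem result :
    ∃ (R O K : Type) (_ : CommRing R) (_ : CommRing O) (_ : Field K) (_ : Algebra ℂ R)
      (_ : Algebra ℂ K) (_ : Algebra R O) (_ : Algebra R K) (_ : Algebra O K)
      (_ : IsScalarTower ℂ R K) (_ : IsScalarTower R O K) (t : R) (m : Ideal R) (_ : m.IsMaximal),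
      IsFractionRing R K ∧ Algebra.FiniteType ℂ R ∧ IsIntegrallyClosed R ∧ t ∈ m ∧
      (Polynomial.aeval t : Polynomial ℂ →ₐ[ℂ] R).toRingHom.Flat ∧
      IsDomain (R ⧸ Ideal.span {t}) ∧ IsIntegrallyClosed (R ⧸ Ideal.span {t}) ∧
      ringKrullDim (R ⧸ Ideal.span {t}) = 2 ∧
      HasRationalResolution (R ⧸ Ideal.span {t}) ∧
      (∀ c : ℂ, c ≠ 0 → IsDomain (R ⧸ Ideal.span {t - algebraMap ℂ R c}) ∧
        Algebra.Smooth ℂ (R ⧸ Ideal.span {t - algebraMap ℂ R c})) ∧
      IsLocalization.AtPrime O m ∧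
      Nonempty (Module.Basis (Fin 3) K Ω[K⁄ℂ]) ∧
      ∀ b : Module.Basis (Fin 3) K Ω[K⁄ℂ], ¬ (canonicalAlgebra O K b).FG := by
  have e := fibreEquiv 0 (τ := tR) (by simp)
  refine ⟨RR, OO, KK, inferInstance, inferInstance, inferInstance, inferInstance, inferInstance,
    inferInstance, inferInstance, inferInstance, inferInstance, inferInstance, tR, mm, mm_max,
    inferInstance, inferInstance, RR_normal, tR_mem, flat_t, e.toMulEquiv.isDomain, ?_, ?_, rational_of_equiv _ e,
    fun c hc => ⟨(fibreEquiv c rfl).toMulEquiv.isDomain, ?_⟩, inferInstance, ⟨b0⟩, not_fg⟩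
  · have := BB_normal
    exact IsIntegrallyClosed.of_equiv e.symm.toRingEquiv
  · rw [ringKrullDim_eq_of_ringEquiv e.toRingEquiv, dim_BB]
  · have := smooth_BB hc
    exact Algebra.Smooth.of_equiv (fibreEquiv c rfl).symm

end Pool.Agent.Lib.MP_20b407_ag.Old
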